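import Pool.Agent.Helper96.SE.Goals

/-!
# Project SE (MP_e44225_nt), packet RB: the integer b and its norm
-/

open NumberField Height
open Pool.Agent.Helper96.SE

namespace Pool.Agent.Helper23.SE

universe u

section height

variable {k : Type u} [Field k] [NumberField k]

lemma finitePlace_le_one (w : FinitePlace k) (x : 𝓞 k) : w (x : k) ≤ 1 := by
  rw [← FinitePlace.norm_embedding_eq]
  exact FinitePlace.norm_le_one k w.maximalIdeal x

lemma max_eq_iSup (a b : ℝ) : max a b = iSup ![a, b] :=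
  eq_of_forall_ge_iff <| by simp [ciSup_le_iff, Fin.forall_fin_two]

/-- For coprime integers `r, s` the height of `r / s` is the sum over the infinite places of
`log max (v r) (v s)`. -/
lemma sum_log_max (r s : 𝓞 k) (hr : r ≠ 0)
    (h : ∀ w : FinitePlace k, w (r : k) = 1 ∨ w (s : k) = 1) :
    logHeight₁ ((r : k) / (s : k)) =
      ∑ v : InfinitePlace k, (v.mult : ℝ) * Real.log (max (v (r : k)) (v (s : k))) := by
  have hr' : (r : k) ≠ 0 := by simpa using hr
  have hx : ![(r : k), (s : k)] ≠ 0 := by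
    intro h0
    exact hr' (by simpa using congrFun h0 0)
  have hI : ∀ v : InfinitePlace k, (⨆ i, v (![(r : k), (s : k)] i)) =
      max (v (r : k)) (v (s : k)) := by
    intro v
    have h1 : (fun i : Fin 2 => v (![(r : k), (s : k)] i)) = ![v (r : k), v (s : k)] := by
      funext i
      fin_cases i <;> simp
    rw [h1, max_eq_iSup]
  have hF : ∀ v : FinitePlace k, (⨆ i, v (![(r : k), (s : k)] i)) = 1 := by
    intro v
    have h1 : (fun i : Fin 2 => v (![(r : k), (s : k)] i)) = ![v (r : k), v (s : k)] := by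
      funext i
      fin_cases i <;> simp
    rw [h1, ← max_eq_iSup]
    rcases h v with h2 | h2
    · rw [h2]
      exact max_eq_left (finitePlace_le_one v s)
    · rw [h2]
      exact max_eq_right (finitePlace_le_one v r)
  have hpos : ∀ v : InfinitePlace k, 0 < max (v (r : k)) (v (s : k)) := fun v =>
    lt_max_of_lt_left (InfinitePlace.pos_iff.mpr hr')
  rw [logHeight₁_div_eq_logHeight, logHeight_eq_log_mulHeight, NumberField.mulHeight_eq hx]
  simp only [hI, hF, finprod_one, mul_one]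
  rw [Real.log_prod (fun v _ => (pow_pos (hpos v) _).ne')]
  exact Finset.sum_congr rfl fun v _ => Real.log_pow _ _

end height

/-- The packet `RB`. -/
theorem rb : RB.{u} := by
  intro k _ _ _ n E c a₀ a₁ hn ha₀ ha₁ hne hc
  -- the common denominator
  obtain ⟨q, hq⟩ := IsLocalization.exist_integer_multiples_of_finset (nonZeroDivisors (𝓞 k))
    (insert (c * (a₁ - a₀)) (E.image fun a => a - a₀))
  have hq0 : ((q : 𝓞 k) : 𝓞 k) ≠ 0 := nonZeroDivisors.ne_zero q.2
  have hint : ∀ x : k, x ∈ insert (c * (a₁ - a₀)) (E.image fun a => a - a₀) →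
      IsIntegral ℤ (((q : 𝓞 k) : k) * x) := by
    intro x hx
    obtain ⟨y, hy⟩ := hq x hx
    have h1 : ((q : 𝓞 k) : k) * x = (y : k) := by
      rw [Algebra.smul_def] at hy
      exact hy.symm
    rw [h1]
    exact y.isIntegral_coe
  have hE1 : (E.erase a₀).card + 1 = E.card := Finset.card_erase_add_one ha₀
  set K : InfinitePlace k → ℝ := fun v =>
    v ((q : 𝓞 k) : k) ^ (n * E.card) * v (c * (a₁ - a₀)) *
      ∏ a ∈ E.erase a₀, (v (a₁ - a₀) + v (a - a₀)) with hK
  have hd : a₁ - a₀ ≠ 0 := sub_ne_zero.mpr (Ne.symm hne)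
  have hKpos : ∀ v, 0 < K v := by
    intro v
    refine mul_pos (mul_pos (pow_pos ?_ _) ?_) (Finset.prod_pos fun a _ => ?_)
    · exact InfinitePlace.pos_iff.mpr (by simp)
    · exact InfinitePlace.pos_iff.mpr (mul_ne_zero hc hd)
    · exact add_pos_of_pos_of_nonneg (InfinitePlace.pos_iff.mpr hd) (apply_nonneg _ _)
  refine ⟨(q : 𝓞 k), hq0, ∑ v : InfinitePlace k, (v.mult : ℝ) * Real.log (K v), ?_⟩
  intro r s hr hs hrs
  have hr' : (r : k) ≠ 0 := by simpa using hr
  have hb : IsIntegral ℤ (((q : 𝓞 k) : k) ^ (n * E.card) * bb n E c a₀ a₁ (r : k) (s : k)) := by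
    have e1 : n * E.card = (n - 1) * E.card + ((E.erase a₀).card + 1) := by
      rw [hE1]
      obtain ⟨m, rfl⟩ := Nat.exists_eq_add_of_le hn
      simp only [Nat.add_sub_cancel_left]
      ring
    have e2 : ((q : 𝓞 k) : k) ^ (n * E.card) * bb n E c a₀ a₁ (r : k) (s : k) =
        ((q : 𝓞 k) : k) ^ ((n - 1) * E.card) * (((q : 𝓞 k) : k) * (c * (a₁ - a₀))) *
          ∏ a ∈ E.erase a₀, (((q : 𝓞 k) : k) * (a₁ - a₀) * (r : k) ^ n -
            ((q : 𝓞 k) : k) * (a - a₀) * (s : k) ^ n) := by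
      have e3 : ∏ a ∈ E.erase a₀, (((q : 𝓞 k) : k) * (a₁ - a₀) * (r : k) ^ n -
            ((q : 𝓞 k) : k) * (a - a₀) * (s : k) ^ n) =
          ((q : 𝓞 k) : k) ^ (E.erase a₀).card *
            ∏ a ∈ E.erase a₀, ((a₁ - a₀) * (r : k) ^ n - (a - a₀) * (s : k) ^ n) := by
        rw [← Finset.prod_const, ← Finset.prod_mul_distrib]
        refine Finset.prod_congr rfl fun a _ => by ring
      rw [e3, e1, bb]
      ring
    rw [e2]
    refine IsIntegral.mul (IsIntegral.mul (IsIntegral.pow (q : 𝓞 k).isIntegral_coe _)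
      (hint _ (Finset.mem_insert_self _ _))) (IsIntegral.prod _ fun a ha => ?_)
    refine IsIntegral.sub (IsIntegral.mul (hint _ ?_) (IsIntegral.pow r.isIntegral_coe _))
      (IsIntegral.mul (hint _ ?_) (IsIntegral.pow s.isIntegral_coe _))
    · exact Finset.mem_insert_of_mem (Finset.mem_image_of_mem _ ha₁)
    · exact Finset.mem_insert_of_mem (Finset.mem_image_of_mem _ (Finset.mem_of_mem_erase ha))
  refine ⟨⟨_, hb⟩, rfl, ?_⟩
  intro hb0
  set b : 𝓞 k := ⟨_, hb⟩ with hbdef
  have hb0' : (b : k) ≠ 0 := by simpa using hb0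
  have hbeq : (b : k) = ((q : 𝓞 k) : k) ^ (n * E.card) * bb n E c a₀ a₁ (r : k) (s : k) := rfl
  have hMpos : ∀ v : InfinitePlace k, 0 < max (v (r : k)) (v (s : k)) := fun v =>
    lt_max_of_lt_left (InfinitePlace.pos_iff.mpr hr')
  -- the norm
  have hnorm : Real.log |(Algebra.norm ℤ b : ℝ)| =
      ∑ v : InfinitePlace k, (v.mult : ℝ) * Real.log (v (b : k)) := by
    have h1 : |(Algebra.norm ℤ b : ℝ)| = ∏ v : InfinitePlace k, v (b : k) ^ v.mult := by
      rw [InfinitePlace.prod_eq_abs_norm]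
      have h2 : Algebra.norm ℚ (b : k) = ((Algebra.norm ℤ b : ℤ) : ℚ) :=
        (Algebra.coe_norm_int b).symm
      rw [h2]
      push_cast
      rfl
    rw [h1, Real.log_prod (fun v _ => (pow_pos (InfinitePlace.pos_iff.mpr hb0') _).ne')]
    exact Finset.sum_congr rfl fun v _ => Real.log_pow _ _
  have hloc : ∀ v : InfinitePlace k, Real.log (v (b : k)) ≤
      Real.log (K v) + ((n : ℝ) * ((E.card : ℝ) - 1)) *
        Real.log (max (v (r : k)) (v (s : k))) := by
    intro v
    set M := max (v (r : k)) (v (s : k)) with hM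
    have hM0 : 0 < M := hMpos v
    have h1 : v (b : k) ≤ K v * (M ^ n) ^ (E.erase a₀).card := by
      rw [hbeq, hK, bb]
      simp only [map_mul, map_pow, map_prod]
      have h2 : ∏ a ∈ E.erase a₀, v ((a₁ - a₀) * (r : k) ^ n - (a - a₀) * (s : k) ^ n) ≤
          (∏ a ∈ E.erase a₀, (v (a₁ - a₀) + v (a - a₀))) * (M ^ n) ^ (E.erase a₀).card := by
        rw [← Finset.prod_const, ← Finset.prod_mul_distrib]
        refine Finset.prod_le_prod (fun a _ => apply_nonneg _ _) fun a _ => ?_
        have h3 : v ((a₁ - a₀) * (r : k) ^ n - (a - a₀) * (s : k) ^ n) ≤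
            v ((a₁ - a₀) * (r : k) ^ n) + v ((a - a₀) * (s : k) ^ n) := by
          have h31 := v.1.add_le ((a₁ - a₀) * (r : k) ^ n) (-((a - a₀) * (s : k) ^ n))
          rw [AbsoluteValue.map_neg v.1, ← sub_eq_add_neg] at h31
          exact h31
        refine h3.trans ?_
        rw [map_mul, map_mul, map_pow, map_pow, add_mul]
        refine add_le_add
          (mul_le_mul_of_nonneg_left (pow_le_pow_left₀ (apply_nonneg _ _) (le_max_left _ _) _)
            (apply_nonneg _ _))
          (mul_le_mul_of_nonneg_left (pow_le_pow_left₀ (apply_nonneg _ _) (le_max_right _ _) _)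
            (apply_nonneg _ _))
      calc v ((q : 𝓞 k) : k) ^ (n * E.card) *
            (v c * v (a₁ - a₀) * ∏ a ∈ E.erase a₀,
              v ((a₁ - a₀) * (r : k) ^ n - (a - a₀) * (s : k) ^ n))
          ≤ v ((q : 𝓞 k) : k) ^ (n * E.card) *
            (v c * v (a₁ - a₀) * ((∏ a ∈ E.erase a₀, (v (a₁ - a₀) + v (a - a₀))) *
              (M ^ n) ^ (E.erase a₀).card)) := by
            refine mul_le_mul_of_nonneg_left (mul_le_mul_of_nonneg_left h2 ?_) ?_
            · exact mul_nonneg (apply_nonneg _ _) (apply_nonneg _ _)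
            · exact pow_nonneg (apply_nonneg _ _) _
        _ = _ := by ring
    have h4 : 0 < v (b : k) := InfinitePlace.pos_iff.mpr hb0'
    have h5 := Real.log_le_log h4 h1
    rw [Real.log_mul (hKpos v).ne' (pow_pos (pow_pos hM0 _) _).ne', Real.log_pow,
      Real.log_pow] at h5
    have h6 : ((E.erase a₀).card : ℝ) = (E.card : ℝ) - 1 := by
      rw [← hE1]
      push_cast
      ring
    rw [h6] at h5
    linarith
  rw [hnorm, sum_log_max r s hr hrs, Finset.mul_sum, ← Finset.sum_add_distrib]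
  refine Finset.sum_le_sum fun v _ => ?_
  have h7 := mul_le_mul_of_nonneg_left (hloc v) (Nat.cast_nonneg (α := ℝ) v.mult)
  refine h7.trans (le_of_eq ?_)
  ring

end Pool.Agent.Helper23.SE
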